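import Pool.Agent.W544.K3.Defs

/-!
# K3-RK: from one hyperbolic wedge to all skew operators
-/

open Module Finset

namespace Pool.Agent.W481.K3

open Pool.Agent.W544.K3

noncomputable section

variable {U : Type} [AddCommGroup U] [Module ℝ U]

/-- The component orthogonal to the hyperbolic pair. -/
def zc (B : U →ₗ[ℝ] U →ₗ[ℝ] ℝ) (e f : U) : U →ₗ[ℝ] U :=
  LinearMap.id - (B f).smulRight e - (B e).smulRight f

theorem zc_apply (B : U →ₗ[ℝ] U →ₗ[ℝ] ℝ) (e f u : U) :
    zc B e f u = u - B f u • e - B e u • f := by
  simp [zc]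

theorem dec (B : U →ₗ[ℝ] U →ₗ[ℝ] ℝ) (e f u : U) :
    u = B f u • e + B e u • f + zc B e f u := by
  rw [zc_apply]; abel

section basic
variable {B : U →ₗ[ℝ] U →ₗ[ℝ] ℝ} {e f : U}

theorem zc_e (_hs : ∀ u v, B u v = B v u) (H : Hyp B e f) (u : U) : B e (zc B e f u) = 0 := by
  obtain ⟨h1, h2, h3⟩ := H
  rw [zc_apply]; simp [h1, h3]

theorem zc_f (hs : ∀ u v, B u v = B v u) (H : Hyp B e f) (u : U) : B f (zc B e f u) = 0 := by
  obtain ⟨h1, h2, h3⟩ := H
  rw [zc_apply]; simp [h2, hs f e, h3]

theorem zc_of (u : U) (h1 : B e u = 0) (h2 : B f u = 0) : zc B e f u = u := by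
  rw [zc_apply, h1, h2]; simp

theorem zc_self_e (H : Hyp B e f) (hs : ∀ u v, B u v = B v u) : zc B e f e = 0 := by
  obtain ⟨h1, h2, h3⟩ := H
  rw [zc_apply, h1, hs f e, h3]; simp

theorem zc_self_f (H : Hyp B e f) (_hs : ∀ u v, B u v = B v u) : zc B e f f = 0 := by
  obtain ⟨h1, h2, h3⟩ := H
  rw [zc_apply, h2, h3]; simp

/-- Commutator of a skew operator with a wedge. -/
theorem comm_wedge (_hs : ∀ u v, B u v = B v u) {A : End ℝ U} (hA : Skew B A) (u v : U) :
    A * wedge B u v - wedge B u v * A = wedge B (A u) v + wedge B u (A v) := by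
  ext w
  have e1 := hA u w
  have e2 := hA v w
  have e3 : B (A u) w = - B u (A w) := by linarith
  have e4 : B (A v) w = - B v (A w) := by linarith
  simp only [LinearMap.sub_apply, LinearMap.add_apply, Module.End.mul_apply, wedge_apply,
    map_sub, map_smul, e3, e4, neg_smul]
  abel

theorem wedge_add_left (u u' v : U) : wedge B (u + u') v = wedge B u v + wedge B u' v := by
  ext w; simp only [LinearMap.add_apply, wedge_apply, map_add, add_smul, smul_add]; abel

theorem wedge_smul_left (c : ℝ) (u v : U) : wedge B (c • u) v = c • wedge B u v := by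
  ext w; simp only [LinearMap.smul_apply, wedge_apply, map_smul, smul_eq_mul, mul_smul, smul_sub]
  rw [smul_comm c (B v w) u]

theorem wedge_add_right (u v v' : U) : wedge B u (v + v') = wedge B u v + wedge B u v' := by
  ext w; simp only [LinearMap.add_apply, wedge_apply, map_add, add_smul, smul_add]; abel

theorem wedge_smul_right (c : ℝ) (u v : U) : wedge B u (c • v) = c • wedge B u v := by
  ext w; simp only [LinearMap.smul_apply, wedge_apply, map_smul, smul_eq_mul, mul_smul, smul_sub]
  rw [smul_comm c (B u w) v]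

theorem wedge_self (u : U) : wedge B u u = 0 := by
  ext w; simp [wedge_apply]

theorem wedge_swap (u v : U) : wedge B u v = - wedge B v u := by
  ext w; simp [wedge_apply]

theorem wedge_skew (hs : ∀ u v, B u v = B v u) (u v : U) : Skew B (wedge B u v) := by
  intro a b
  simp only [wedge_apply, map_sub, map_smul, LinearMap.sub_apply, LinearMap.smul_apply,
    smul_eq_mul]
  rw [hs a v, hs a u]; ring

/-- Eigenvectors of `wedge f e`. -/
theorem ev (hs : ∀ u v, B u v = B v u) (H : Hyp B e f) {μ : ℝ} {w : U}
    (hw : wedge B f e w = μ • w) : (1 - μ) * B f w = 0 ∧ (1 + μ) * B e w = 0 := by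
  obtain ⟨h1, h2, h3⟩ := H
  rw [wedge_apply] at hw
  have a1 := congrArg (fun t => B f t) hw
  have a2 := congrArg (fun t => B e t) hw
  simp only [map_sub, map_smul, smul_eq_mul, h1, h2, h3, hs f e, mul_one, mul_zero] at a1 a2
  constructor <;> linarith

theorem ev_zero (hs : ∀ u v, B u v = B v u) (H : Hyp B e f) {μ : ℝ} {w : U}
    (hw : wedge B f e w = μ • w) (h1 : μ ≠ 1) (h2 : μ ≠ -1) (h0 : μ ≠ 0) : w = 0 := by
  obtain ⟨a, b⟩ := ev hs H hw
  have ha : B f w = 0 := by
    rcases mul_eq_zero.1 a with h | h
    · exact absurd (by linarith) h1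
    · exact h
  have hb : B e w = 0 := by
    rcases mul_eq_zero.1 b with h | h
    · exact absurd (by linarith) h2
    · exact h
  rw [wedge_apply, ha, hb] at hw
  simp only [zero_smul, sub_zero] at hw
  exact (smul_eq_zero.1 hw.symm).resolve_left h0

theorem ev_neg (hs : ∀ u v, B u v = B v u) (H : Hyp B e f) {w : U}
    (hw : wedge B f e w = (-1 : ℝ) • w) : w = B e w • f := by
  obtain ⟨a, b⟩ := ev hs H hw
  have ha : B f w = 0 := by linarith
  rw [wedge_apply, ha] at hw
  simp only [zero_smul, zero_sub, neg_smul, one_smul, neg_inj] at hw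
  exact hw.symm

theorem ev_pos (hs : ∀ u v, B u v = B v u) (H : Hyp B e f) {w : U}
    (hw : wedge B f e w = (1 : ℝ) • w) : w = B f w • e := by
  obtain ⟨a, b⟩ := ev hs H hw
  have hb : B e w = 0 := by linarith
  rw [wedge_apply, hb] at hw
  simp only [zero_smul, sub_zero, one_smul] at hw
  exact hw.symm

theorem xe (hs : ∀ u v, B u v = B v u) (H : Hyp B e f) : wedge B f e e = e := by
  obtain ⟨h1, h2, h3⟩ := H
  rw [wedge_apply, h1, hs f e, h3]; simp

theorem xf (_hs : ∀ u v, B u v = B v u) (H : Hyp B e f) : wedge B f e f = -f := by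
  obtain ⟨h1, h2, h3⟩ := H
  rw [wedge_apply, h2, h3]; simp

theorem xz {z : U} (h1 : B e z = 0) (h2 : B f z = 0) : wedge B f e z = 0 := by
  rw [wedge_apply, h1, h2]; simp

theorem diag_x (hs : ∀ u v, B u v = B v u) (H : Hyp B e f) : Diag (wedge B f e) := by
  rw [Diag, eq_top_iff]
  intro u _
  rw [dec B e f u]
  refine Submodule.add_mem _ (Submodule.add_mem _ ?_ ?_) ?_
  · apply Submodule.smul_mem
    refine (le_iSup (fun μ : ℝ => End.eigenspace (wedge B f e) μ) 1) ?_
    rw [End.mem_eigenspace_iff, xe hs H, one_smul]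
  · apply Submodule.smul_mem
    refine (le_iSup (fun μ : ℝ => End.eigenspace (wedge B f e) μ) (-1)) ?_
    rw [End.mem_eigenspace_iff, xf hs H, neg_smul, one_smul]
  · refine (le_iSup (fun μ : ℝ => End.eigenspace (wedge B f e) μ) 0) ?_
    rw [End.mem_eigenspace_iff, xz (zc_e hs H u) (zc_f hs H u), zero_smul]

theorem hom_apply {x y : End ℝ U} {α : ℝ} (h : Pool.Agent.W544.K3.Hom x α y) {μ : ℝ} {u : U}
    (hu : x u = μ • u) : x (y u) = (μ + α) • y u := by
  have := congrArg (fun t : End ℝ U => t u) h
  simp only [LinearMap.sub_apply, Module.End.mul_apply, LinearMap.smul_apply, hu, map_smul] at this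
  rw [add_smul, ← this]; abel

/-- A skew operator of degree `-1` is a wedge. -/
theorem deg_neg (hs : ∀ u v, B u v = B v u) (H : Hyp B e f) {y : End ℝ U} (hy : Skew B y)
    (h : Pool.Agent.W544.K3.Hom (wedge B f e) (-1) y) : y = wedge B f (y e) := by
  have yf : y f = 0 := by
    have := hom_apply h (μ := -1) (u := f) (by rw [xf hs H]; simp)
    exact ev_zero hs H this (by norm_num) (by norm_num) (by norm_num)
  have ye := hom_apply h (μ := 1) (u := e) (by rw [xe hs H]; simp)
  obtain ⟨a, b⟩ := ev hs H ye
  have a' : B f (y e) = 0 := by linarith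
  have b' : B e (y e) = 0 := by linarith
  ext w
  rw [wedge_apply]
  have hz : y (zc B e f w) = B e (y (zc B e f w)) • f := by
    apply ev_neg hs H
    have := hom_apply h (μ := 0) (u := zc B e f w)
      (by rw [xz (zc_e hs H w) (zc_f hs H w)]; simp)
    rw [this]; norm_num
  have hc : B e (y (zc B e f w)) = - B (y e) w := by
    have h1 := hy e (zc B e f w)
    have h2 : B (y e) (zc B e f w) = B (y e) w := by
      rw [zc_apply, map_sub, map_sub, map_smul, map_smul, hs (y e) e, hs (y e) f, a', b']; simp
    linarith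
  calc y w = y (B f w • e + B e w • f + zc B e f w) := by rw [← dec]
    _ = B f w • y e + B e w • y f + y (zc B e f w) := by simp
    _ = B f w • y e - B (y e) w • f := by rw [yf, hz, hc]; simp [sub_eq_add_neg]

end basic

/-- The main step: all `wedge f z` are in `n`. -/
theorem main [FiniteDimensional ℝ U] (hclos : S_clos) {B : U →ₗ[ℝ] U →ₗ[ℝ] ℝ}
    {h n : Submodule ℝ (End ℝ U)} (D : Dat B h n) {e f : U} (H : Hyp B e f)
    (hx : wedge B f e ∈ n) {z : U} (hz1 : B e z = 0) (hz2 : B f z = 0) : wedge B f z ∈ n := by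
  have hs := D.sig.1
  -- the subspace
  let S : Submodule ℝ U := 
    { carrier := {u | wedge B f (zc B e f u) ∈ h}
      add_mem' := by
        intro a b ha hb
        simp only [Set.mem_ofPred_eq, map_add, wedge_add_right] at *
        exact h.add_mem ha hb
      zero_mem' := by
        have : wedge B f 0 = 0 := by ext w; simp [wedge_apply]
        simp only [Set.mem_ofPred_eq, map_zero, this]
        exact h.zero_mem
      smul_mem' := by
        intro c a ha
        simp only [Set.mem_ofPred_eq, map_smul, wedge_smul_right] at *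
        exact h.smul_mem c ha }
  have memS : ∀ u, u ∈ S ↔ wedge B f (zc B e f u) ∈ h := fun u => Iff.rfl
  have zeroS : ∀ u, zc B e f u = 0 → u ∈ S := by
    intro u hu
    rw [memS, hu]
    have : wedge B f 0 = 0 := by ext w; simp [wedge_apply]
    rw [this]; exact h.zero_mem
  have eS : e ∈ S := zeroS _ (zc_self_e H hs)
  have fS : f ∈ S := zeroS _ (zc_self_f H hs)
  let L0 : Submodule ℝ U := Submodule.span ℝ {e}
  have he : e ≠ 0 := by
    intro h0
    have := H.2.2
    rw [h0] at this; simp at this
  have key : S.prod S = ⊤ := by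
    refine hclos U (wedge B f e) h (diag_x hs H) (D.sub hx) D.lie D.irr (L0.prod L0) (S.prod S)
      ?_ ?_ ?_ ?_ ?_ ?_
    · rintro ⟨p, q⟩ hp
      rw [Submodule.mem_prod] at hp ⊢
      exact ⟨Submodule.neg_mem _ hp.2, hp.1⟩
    · rintro ⟨p, q⟩ hp
      rw [Submodule.mem_prod] at hp ⊢
      exact ⟨Submodule.neg_mem _ hp.2, hp.1⟩
    · have : L0 ≤ S := by
        rw [Submodule.span_singleton_le_iff_mem]; exact eS
      exact Submodule.prod_mono this this
    · intro h0
      have : ((e, 0) : U × U) ∈ L0.prod L0 := by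
        rw [Submodule.mem_prod]
        exact ⟨Submodule.mem_span_singleton_self e, Submodule.zero_mem _⟩
      rw [h0, Submodule.mem_bot, Prod.mk_eq_zero] at this
      exact he this.1
    · rintro α hα y hy hyh ⟨p, q⟩ hp
      rw [Submodule.mem_prod] at hp
      have ye : y e = 0 := by
        have := hom_apply hyh (μ := 1) (u := e) (by rw [xe hs H]; simp)
        refine ev_zero hs H this (by intro h; linarith) (by intro h; linarith)
          (by intro h; linarith)
      obtain ⟨h1, h2⟩ := hp
      simp only [L0, Submodule.mem_span_singleton] at h1 h2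
      obtain ⟨a, ha⟩ := h1
      obtain ⟨b, hb⟩ := h2
      simp only at ha hb ⊢
      rw [← ha, ← hb]; simp [ye]
    · rintro α hα y hy hyh ⟨p, q⟩ hp
      have ys := D.skew y hy
      -- y f = c f
      have yf : ∃ c : ℝ, y f = c • f := by
        have := hom_apply hyh (μ := -1) (u := f) (by rw [xf hs H]; simp)
        by_cases h0 : α = 0
        · rw [h0, add_zero] at this
          exact ⟨_, ev_neg hs H this⟩
        · have hα' : α < 0 := lt_of_le_of_ne hα h0
          refine ⟨0, ?_⟩
          rw [zero_smul]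
          exact ev_zero hs H this (by intro h; linarith) (by intro h; apply h0; linarith)
            (by intro h; linarith)
      have yfS : y f ∈ S := by
        obtain ⟨c, hc⟩ := yf
        rw [hc]; exact S.smul_mem c fS
      have yeS : y e ∈ S := by
        have := hom_apply hyh (μ := 1) (u := e) (by rw [xe hs H]; simp)
        by_cases h0 : α = 0
        · rw [h0, add_zero] at this
          rw [ev_pos hs H this]; exact S.smul_mem _ eS
        by_cases h1 : α = -1
        · subst h1
          obtain ⟨a, b⟩ := ev hs H this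
          have a' : B f (y e) = 0 := by linarith
          have b' : B e (y e) = 0 := by linarith
          rw [memS, zc_of _ b' a', ← deg_neg hs H ys hyh]
          exact hy
        by_cases h2 : α = -2
        · rw [h2] at this
          norm_num at this
          have h3 : wedge B f e (y e) = (-1 : ℝ) • y e := by rw [this]; simp
          rw [ev_neg hs H h3]; exact S.smul_mem _ fS
        · have : y e = 0 := ev_zero hs H this (by intro h; apply h0; linarith)
            (by intro h; apply h2; linarith) (by intro h; apply h1; linarith)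
          rw [this]; exact S.zero_mem
      have yzS : ∀ u ∈ S, y (zc B e f u) ∈ S := by
        intro u hu
        have this := hom_apply hyh (μ := 0) (u := zc B e f u)
          (by rw [xz (zc_e hs H u) (zc_f hs H u)]; simp)
        by_cases h0 : α = 0
        · obtain ⟨a, b⟩ := ev hs H this
          have a' : B f (y (zc B e f u)) = 0 := by rw [h0] at a; linarith
          have b' : B e (y (zc B e f u)) = 0 := by rw [h0] at b; linarith
          rw [memS, zc_of _ b' a']
          have h1 := D.lie y hy _ ((memS u).1 hu)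
          rw [comm_wedge hs ys] at h1
          obtain ⟨c, hc⟩ := yf
          rw [hc, wedge_smul_left] at h1
          have h2 := h.smul_mem c ((memS u).1 hu)
          have h3 := h.sub_mem h1 h2
          simpa using h3
        by_cases h1 : α = -1
        · rw [h1] at this
          have h3 : wedge B f e (y (zc B e f u)) = (-1 : ℝ) • y (zc B e f u) := by
            rw [this]; norm_num
          rw [ev_neg hs H h3]; exact S.smul_mem _ fS
        · have : y (zc B e f u) = 0 := ev_zero hs H this (by intro h; linarith)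
            (by intro h; apply h1; linarith) (by intro h; apply h0; linarith)
          rw [this]; exact S.zero_mem
      have yS : ∀ u ∈ S, y u ∈ S := by
        intro u hu
        rw [dec B e f u, map_add, map_add, map_smul, map_smul]
        exact S.add_mem (S.add_mem (S.smul_mem _ yeS) (S.smul_mem _ yfS)) (yzS u hu)
      rw [Submodule.mem_prod] at hp ⊢
      exact ⟨yS _ hp.1, yS _ hp.2⟩
  have hzS : z ∈ S := by
    have : ((z, 0) : U × U) ∈ S.prod S := by rw [key]; trivial
    exact (Submodule.mem_prod.1 this).1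
  rw [memS, zc_of z hz1 hz2] at hzS
  have h1 := D.ideal _ hzS _ hx
  have h2 := comm_wedge hs (wedge_skew hs f e) f z
  rw [xf hs H, xz hz1 hz2] at h2
  have h3 : wedge B f z * wedge B f e - wedge B f e * wedge B f z = wedge B f z := by
    have h4 : wedge B f 0 = 0 := by ext w; simp [wedge_apply]
    have h5 : wedge B (-f) z = - wedge B f z := by
      ext w; simp [wedge_apply]; abel
    rw [h4, h5, add_zero] at h2
    have := congrArg Neg.neg h2
    simpa using this
  rwa [h3] at h1

theorem all_wedge [FiniteDimensional ℝ U] (hclos : S_clos) {B : U →ₗ[ℝ] U →ₗ[ℝ] ℝ}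
    {h n : Submodule ℝ (End ℝ U)} (D : Dat B h n) {e f : U} (H : Hyp B e f)
    (hx : wedge B f e ∈ n) (u v : U) : wedge B u v ∈ n := by
  have hs := D.sig.1
  have H' : Hyp B f e := ⟨H.2.1, H.1, by rw [hs f e]; exact H.2.2⟩
  have hx' : wedge B e f ∈ n := by rw [wedge_swap]; exact n.neg_mem hx
  have A1 : ∀ z, B e z = 0 → B f z = 0 → wedge B f z ∈ n := fun z h1 h2 =>
    main hclos D H hx h1 h2
  have A2 : ∀ z, B e z = 0 → B f z = 0 → wedge B e z ∈ n := fun z h1 h2 =>
    main hclos D H' hx' h2 h1
  have A3 : ∀ z z', B e z = 0 → B f z = 0 → B e z' = 0 → B f z' = 0 → wedge B z z' ∈ n := by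
    intro z z' h1 h2 h3 h4
    have c1 := D.ideal _ (D.sub (A2 z h1 h2)) _ (A1 z' h3 h4)
    rw [comm_wedge hs (wedge_skew hs e z)] at c1
    have c2 : wedge B e z f = z := by
      rw [wedge_apply, H.2.2, hs z f, h2]; simp
    have c3 : wedge B e z z' = -(B z z') • e := by
      rw [wedge_apply, h3]; simp
    rw [c2, c3, wedge_smul_right] at c1
    have c4 := n.add_mem c1 (n.smul_mem (B z z') hx)
    simpa using c4
  have A4 : ∀ u, wedge B e u ∈ n := by
    intro u
    rw [dec B e f u, wedge_add_right, wedge_add_right, wedge_smul_right, wedge_smul_right,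
      wedge_self]
    refine n.add_mem (n.add_mem (n.smul_mem _ n.zero_mem) (n.smul_mem _ hx')) 
      (A2 _ (zc_e hs H u) (zc_f hs H u))
  have A5 : ∀ u, wedge B f u ∈ n := by
    intro u
    rw [dec B e f u, wedge_add_right, wedge_add_right, wedge_smul_right, wedge_smul_right,
      wedge_self]
    refine n.add_mem (n.add_mem (n.smul_mem _ hx) (n.smul_mem _ n.zero_mem)) 
      (A1 _ (zc_e hs H u) (zc_f hs H u))
  have A6 : ∀ z, B e z = 0 → B f z = 0 → ∀ u, wedge B z u ∈ n := by
    intro z h1 h2 u
    rw [dec B e f u, wedge_add_right, wedge_add_right, wedge_smul_right, wedge_smul_right]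
    refine n.add_mem (n.add_mem (n.smul_mem _ ?_) (n.smul_mem _ ?_)) 
      (A3 _ _ h1 h2 (zc_e hs H u) (zc_f hs H u))
    · rw [wedge_swap]; exact n.neg_mem (A4 z)
    · rw [wedge_swap]; exact n.neg_mem (A5 z)
  rw [dec B e f u, wedge_add_left, wedge_add_left, wedge_smul_left, wedge_smul_left]
  exact n.add_mem (n.add_mem (n.smul_mem _ (A4 v)) (n.smul_mem _ (A5 v)))
    (A6 _ (zc_e hs H u) (zc_f hs H u) v)

theorem nondeg {B : U →ₗ[ℝ] U →ₗ[ℝ] ℝ} (h : Sig2 B) : LinearMap.Nondegenerate B := by
  obtain ⟨hs, p, q, hp, hq, hpq, hneg⟩ := h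
  have key : ∀ u, (∀ v, B u v = 0) → u = 0 := by
    intro u hu
    by_contra hne
    have := hneg u hne (hu p) (hu q)
    rw [hu u] at this
    exact lt_irrefl _ this
  constructor
  · exact key
  · intro u hu
    exact key u (fun v => by rw [hs]; exact hu v)

theorem rk : S_clos → S_rk := by
  intro hclos U _ _ _ B h n D e f H hx y hy
  have hs := D.sig.1
  have W := all_wedge hclos D H hx
  have nd := nondeg D.sig
  let b := Module.finBasis ℝ U
  let b' := LinearMap.BilinForm.dualBasis B nd b
  have hb : ∀ i j, B (b' i) (b j) = if j = i then 1 else 0 := fun i j =>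
    LinearMap.BilinForm.apply_dualBasis_left nd b i j
  have e1 : ∀ w : U, ∑ i, B (b' i) w • b i = w := by
    intro w
    conv_rhs => rw [← b.sum_repr w]
    refine Finset.sum_congr rfl fun i _ => ?_
    congr 1
    conv_lhs => rw [← b.sum_repr w]
    rw [map_sum]
    simp [hb]
  have e2 : ∀ w : U, ∑ i, B (b i) w • b' i = w := by
    intro w
    conv_rhs => rw [← b'.sum_repr w]
    refine Finset.sum_congr rfl fun i _ => ?_
    congr 1
    rw [hs]
    exact (LinearMap.BilinForm.dualBasis_repr_apply nd b w i).symm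
  have e3 : (2 : ℝ) • y = ∑ i, wedge B (b' i) (y (b i)) := by
    ext w
    rw [LinearMap.sum_apply]
    simp only [wedge_apply, Finset.sum_sub_distrib, LinearMap.smul_apply]
    have s1 : ∑ i, B (b' i) w • y (b i) = y w := by
      conv_rhs => rw [← e1 w]
      simp
    have s2 : ∑ i, B (y (b i)) w • b' i = - y w := by
      have : ∀ i, B (y (b i)) w = - B (b i) (y w) := fun i => by
        have := hy (b i) w; linarith
      simp only [this, neg_smul, Finset.sum_neg_distrib]
      rw [e2 (y w)]
    rw [s1, s2, sub_neg_eq_add, two_smul]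
  have e4 : (2 : ℝ) • y ∈ n := by
    rw [e3]; exact n.sum_mem fun i _ => W _ _
  have := n.smul_mem (2⁻¹ : ℝ) e4
  rwa [smul_smul, inv_mul_cancel₀ (by norm_num : (2 : ℝ) ≠ 0), one_smul] at this

end

end Pool.Agent.W481.K3
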